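import Pool.Agent.Y393.RS.Mix
import Pool.Agent.H892.LEC.Few

/-!
# Robustness of the list edge-colouring conjecture: the deterministic part
-/

set_option autoImplicit false

namespace Pool.Agent.U380.RL

open Finset Pool.Agent.Y393.RS

/-- The edges of `G` can be properly coloured from all lists of at least `k` colours. -/
def EdgeChoosable {V : Type} (G : SimpleGraph V) (k : ℕ) : Prop :=
  ∀ L : G.edgeSet → Finset ℕ, (∀ e, k ≤ (L e).card) →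
    ∃ f : G.edgeSet → ℕ, (∀ e, f e ∈ L e) ∧ ∀ e e', G.lineGraph.Adj e e' → f e ≠ f e'

/-- The list edge-colouring conjecture holds for `G`, and both numbers in it are equal to the
maximum degree `D`. -/
def Good {V : Type} (G : SimpleGraph V) : Prop :=
  (∀ k : ℕ, G.lineGraph.Colorable k ↔ EdgeChoosable G k) ∧
    ∃ D : ℕ, (∀ v, (G.neighborSet v).ncard ≤ D) ∧ (∃ v, (G.neighborSet v).ncard = D) ∧
      EdgeChoosable G D

/-- The degree of `v` in `G`. -/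
noncomputable def deg {n : ℕ} (G : SimpleGraph (Fin n)) (v : Fin n) : ℝ :=
  ((G.neighborSet v).ncard : ℝ)

theorem tendsto_rp {a : ℝ} (ha : 0 < a) :
    Filter.Tendsto (fun n : ℕ => (n : ℝ) ^ a) Filter.atTop Filter.atTop :=
  (tendsto_rpow_atTop ha).comp tendsto_natCast_atTop_atTop

theorem log_small : ∃ n₀ : ℕ, ∀ n : ℕ, n₀ ≤ n → Real.log n ≤ (n : ℝ) ^ (1 / 20 : ℝ) := by
  have h1 := (isLittleO_log_rpow_atTop (show (0 : ℝ) < 1 / 20 by norm_num)).bound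
    (show (0 : ℝ) < 1 by norm_num)
  have h2 := (tendsto_natCast_atTop_atTop (R := ℝ)).eventually h1
  obtain ⟨n₀, h⟩ := Filter.eventually_atTop.1 h2
  refine ⟨n₀, fun n hn => ?_⟩
  have h3 := h n hn
  rw [one_mul, Real.norm_eq_abs, Real.norm_eq_abs, abs_of_nonneg (Real.rpow_nonneg
    (Nat.cast_nonneg n) _)] at h3
  exact (le_abs_self _).trans h3

theorem Lm_le {n : ℕ} (h1 : 1 ≤ n) (h : Real.log n ≤ (n : ℝ) ^ (1 / 20 : ℝ)) :
    Lm n ≤ (n : ℝ) ^ (21 / 40 : ℝ) := by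
  have hn : (1 : ℝ) ≤ n := by exact_mod_cast h1
  have hn0 : (0 : ℝ) < n := by linarith
  unfold Lm
  rw [Real.sqrt_le_left (Real.rpow_nonneg hn0.le _)]
  have e1 : ((n : ℝ) ^ (21 / 40 : ℝ)) ^ 2 = n * (n : ℝ) ^ (1 / 20 : ℝ) := by
    rw [← Real.rpow_natCast, ← Real.rpow_mul hn0.le]
    nth_rewrite 2 [← Real.rpow_one (n : ℝ)]
    rw [← Real.rpow_add hn0]
    norm_num
  rw [e1]
  exact mul_le_mul_of_nonneg_left h hn0.le

theorem Lm_ge {n : ℕ} (h3 : 3 ≤ n) : (n : ℝ) ^ (1 / 2 : ℝ) ≤ Lm n := by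
  have hn : (3 : ℝ) ≤ n := by exact_mod_cast h3
  have hn0 : (0 : ℝ) < n := by linarith
  unfold Lm
  rw [← Real.sqrt_eq_rpow]
  apply Real.sqrt_le_sqrt
  have h4 : 1 ≤ Real.log n := by
    rw [Real.le_log_iff_exp_le hn0]
    have := Real.exp_one_lt_d9
    linarith
  nlinarith

/-- a power smaller than `1/2` is small in comparison with `√(n log n)` -/
theorem small_pow {b κ : ℝ} (hb : b < 1 / 2) (hκ : 0 < κ) : ∃ n₀ : ℕ, ∀ n : ℕ, n₀ ≤ n →
    (n : ℝ) ^ b ≤ κ * Lm n := by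
  obtain ⟨n₁, hn₁⟩ := Filter.eventually_atTop.1
    ((tendsto_rp (show (0 : ℝ) < 1 / 2 - b by linarith)).eventually_ge_atTop (1 / κ))
  refine ⟨max n₁ 3, fun n hn => ?_⟩
  have h2 := hn₁ n ((le_max_left _ _).trans hn)
  have h3 : 3 ≤ n := (le_max_right n₁ 3).trans hn
  have hn0 : (0 : ℝ) < n := by
    have : (3 : ℝ) ≤ n := by exact_mod_cast h3
    linarith
  have h5 : (n : ℝ) ^ (1 / 2 : ℝ) = (n : ℝ) ^ b * (n : ℝ) ^ (1 / 2 - b : ℝ) := by
    rw [← Real.rpow_add hn0]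
    congr 1
    ring
  have h6 : 0 < (n : ℝ) ^ b := Real.rpow_pos_of_pos hn0 _
  have h7 : 1 ≤ κ * (n : ℝ) ^ (1 / 2 - b : ℝ) := by
    rw [div_le_iff₀ hκ] at h2
    linarith
  calc (n : ℝ) ^ b ≤ (κ * (n : ℝ) ^ (1 / 2 - b : ℝ)) * (n : ℝ) ^ b := by nlinarith
    _ = κ * (n : ℝ) ^ (1 / 2 : ℝ) := by rw [h5]; ring
    _ ≤ κ * Lm n := mul_le_mul_of_nonneg_left (Lm_ge h3) hκ.le

/-- `√(n log n) log n` is small in comparison with `n ^ (2/3)` -/
theorem growth2 (C : ℝ) (hC : 0 < C) : ∃ n₀ : ℕ, ∀ n : ℕ, n₀ ≤ n →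
    C * Lm n * (1 + Real.log n) ≤ (n : ℝ) ^ (2 / 3 : ℝ) := by
  obtain ⟨n₁, h1⟩ := log_small
  obtain ⟨n₂, h2⟩ := Filter.eventually_atTop.1
    ((tendsto_rp (show (0 : ℝ) < 1 / 15 by norm_num)).eventually_ge_atTop (2 * C))
  refine ⟨max (max n₁ n₂) 3, fun n hn => ?_⟩
  have hn1 : n₁ ≤ n := le_trans (le_trans (le_max_left _ _) (le_max_left _ _)) hn
  have hn2 : n₂ ≤ n := le_trans (le_trans (le_max_right _ _) (le_max_left _ _)) hn
  have hn3 : 3 ≤ n := le_trans (le_max_right _ _) hn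
  have h3 : (3 : ℝ) ≤ n := by exact_mod_cast hn3
  have hn0 : (0 : ℝ) < n := by linarith
  have g1 := h1 n hn1
  have g2 := h2 n hn2
  have g3 := Lm_le (by omega : 1 ≤ n) g1
  have g4 : (1 : ℝ) ≤ (n : ℝ) ^ (1 / 20 : ℝ) := Real.one_le_rpow (by linarith) (by norm_num)
  have g5 : 1 + Real.log n ≤ 2 * (n : ℝ) ^ (1 / 20 : ℝ) := by linarith
  have g0 : 0 ≤ Real.log n := Real.log_natCast_nonneg n
  have hL : 0 ≤ Lm n := Real.sqrt_nonneg _
  have e1 : (n : ℝ) ^ (21 / 40 : ℝ) * (n : ℝ) ^ (1 / 20 : ℝ) = (n : ℝ) ^ (23 / 40 : ℝ) := by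
    rw [← Real.rpow_add hn0]
    norm_num
  have e2 : (n : ℝ) ^ (23 / 40 : ℝ) ≤ (n : ℝ) ^ (3 / 5 : ℝ) :=
    Real.rpow_le_rpow_of_exponent_le (by linarith) (by norm_num)
  have e3 : (n : ℝ) ^ (3 / 5 : ℝ) * (n : ℝ) ^ (1 / 15 : ℝ) = (n : ℝ) ^ (2 / 3 : ℝ) := by
    rw [← Real.rpow_add hn0]
    norm_num
  have e4 : 0 < (n : ℝ) ^ (3 / 5 : ℝ) := Real.rpow_pos_of_pos hn0 _
  have e5 : Lm n * (1 + Real.log n) ≤ (n : ℝ) ^ (21 / 40 : ℝ) * (2 * (n : ℝ) ^ (1 / 20 : ℝ)) :=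
    mul_le_mul g3 g5 (by linarith) (Real.rpow_nonneg hn0.le _)
  calc C * Lm n * (1 + Real.log n) = C * (Lm n * (1 + Real.log n)) := by ring
    _ ≤ C * (2 * (n : ℝ) ^ (23 / 40 : ℝ)) := by
        refine mul_le_mul_of_nonneg_left (e5.trans (le_of_eq ?_)) hC.le
        rw [← e1]
        ring
    _ ≤ (2 * C) * (n : ℝ) ^ (3 / 5 : ℝ) := by nlinarith
    _ ≤ (n : ℝ) ^ (3 / 5 : ℝ) * (n : ℝ) ^ (1 / 15 : ℝ) := by nlinarith
    _ = _ := e3

/-- The deterministic theorem: few vertices of degree near the maximum degree. -/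
theorem det {ε : ℝ} (hε : 0 < ε) : ∃ n₀ : ℕ, ∀ n : ℕ, n₀ ≤ n →
    ∀ (G : SimpleGraph (Fin n)) (T : Finset (Fin n)) (D : ℕ),
    (∀ v, (G.neighborSet v).ncard ≤ D) → (∃ v, (G.neighborSet v).ncard = D) →
    (n : ℝ) ^ (2 / 3 : ℝ) / 2 ≤ D → (T.card : ℝ) ≤ ε / 8 * Lm n →
    (∀ v ∉ T, deg G v ≤ D - ε * Lm n) → Good G := by
  classical
  obtain ⟨K, hK⟩ := Pool.Agent.H892.LEC.main
  obtain ⟨n₁, h1⟩ := hK (ε / 4) (by positivity)
  obtain ⟨n₂, h2⟩ := growth2 (17 * ε) (by positivity)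
  refine ⟨max (max n₁ n₂) 3, fun n hn G T D hD hv hlow hT hout => ?_⟩
  have hn1 : n₁ ≤ n := le_trans (le_trans (le_max_left _ _) (le_max_left _ _)) hn
  have hn2 : n₂ ≤ n := le_trans (le_trans (le_max_right _ _) (le_max_left _ _)) hn
  have hn3 : 3 ≤ n := le_trans (le_max_right _ _) hn
  have h3 : (3 : ℝ) ≤ n := by exact_mod_cast hn3
  have hn0 : (0 : ℝ) < n := by linarith
  have hL : 0 ≤ Lm n := Real.sqrt_nonneg _
  have g2 := h2 n hn2
  have hDn : D ≤ n := by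
    obtain ⟨v, hv⟩ := hv
    rw [← hv]
    calc (G.neighborSet v).ncard ≤ (Set.univ : Set (Fin n)).ncard :=
          Set.ncard_le_ncard (Set.subset_univ _) (Set.toFinite _)
      _ = n := by rw [Set.ncard_univ, Nat.card_eq_fintype_card, Fintype.card_fin]
  have hD0 : (0 : ℝ) < D := lt_of_lt_of_le (by positivity) hlow
  have hlog : Real.log D ≤ Real.log n := Real.log_le_log hD0 (by exact_mod_cast hDn)
  have hlog0 : 0 ≤ Real.log D := Real.log_natCast_nonneg D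
  have hcard : Fintype.card (Fin n) = n := Fintype.card_fin n
  have key := h1 (Fin n) G D T (2 * (T.card : ℝ)) (ε / 4 * Lm n) (Or.inr ⟨by rw [hcard]; exact hn1,
    by rw [hcard]; exact le_rfl⟩) ?_ hD ?_ ?_ ?_
  · obtain ⟨k1, k2⟩ := key
    obtain ⟨v, hv⟩ := hv
    exact ⟨fun k => k2 v hv k, D, hD, ⟨v, hv⟩, k1⟩
  · have i1 : 34 * (2 * (T.card : ℝ)) * (1 + Real.log D) ≤
        34 * (2 * (ε / 8 * Lm n)) * (1 + Real.log n) := by
      have : (0 : ℝ) ≤ T.card := Nat.cast_nonneg _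
      refine mul_le_mul (by linarith) (by linarith) (by linarith) (by positivity)
    have i2 : 34 * (2 * (ε / 8 * Lm n)) * (1 + Real.log n) =
        (17 * ε * Lm n * (1 + Real.log n)) / 2 := by ring
    linarith
  · intro X hX
    have i1 : {e : Fin n × Fin n | e.1 ∈ X ∧ e.2 ∈ X ∧ G.Adj e.1 e.2}.ncard ≤ (X ×ˢ X).card := by
      rw [← Set.ncard_coe_finset]
      refine Set.ncard_le_ncard ?_ (Finset.finite_toSet _)
      rintro ⟨x, y⟩ ⟨hx, hy, -⟩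
      simp only [Finset.coe_product, Set.mem_prod, Finset.mem_coe]
      exact ⟨hx, hy⟩
    rw [Finset.card_product] at i1
    have i2 : ({e : Fin n × Fin n | e.1 ∈ X ∧ e.2 ∈ X ∧ G.Adj e.1 e.2}.ncard : ℝ) ≤
        (X.card : ℝ) * X.card := by exact_mod_cast i1
    have i3 : (X.card : ℝ) ≤ T.card := by exact_mod_cast Finset.card_le_card hX
    have i4 : (0 : ℝ) ≤ X.card := Nat.cast_nonneg _
    nlinarith
  · intro v _
    have i1 : {w : Fin n | w ∈ T ∧ G.Adj v w}.ncard ≤ T.card := by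
      rw [← Set.ncard_coe_finset]
      exact Set.ncard_le_ncard (fun w hw => hw.1) (Finset.finite_toSet _)
    have i2 : ({w : Fin n | w ∈ T ∧ G.Adj v w}.ncard : ℝ) ≤ T.card := by exact_mod_cast i1
    linarith
  · intro v hv
    have i1 : {w : Fin n | w ∉ T ∧ G.Adj v w}.ncard ≤ (G.neighborSet v).ncard :=
      Set.ncard_le_ncard (fun w hw => hw.2) (Set.toFinite _)
    have i2 : ({w : Fin n | w ∉ T ∧ G.Adj v w}.ncard : ℝ) ≤ deg G v := by
      unfold deg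
      exact_mod_cast i1
    have i3 := hout v hv
    nlinarith

end Pool.Agent.U380.RL
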