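import Pool.Agent.H162R2.AG.G0
import Pool.Agent.H162R2.AG.P1
import Pool.Agent.H162R2.AG.G1
import Pool.Agent.H551R2.AG.G1a

/-!
# The largest degrees of almost all graphs, with the best constants

The arguments of helper25, helper497, helper503 and helper551 (project of helper162) with general
constants.
-/

set_option autoImplicit false

namespace Pool.Agent.U380.RL

open Finset Pool.Agent.H162R2.AG Pool.Agent.H162R2.Sparse

open Filter Topology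

theorem Lam_le_eps {ρ : ℝ} (hρ : 0 < ρ) : ∀ᶠ m : ℕ in atTop,
    Real.log m ≤ ρ * m := by
  have h := (Real.isLittleO_log_id_atTop.def hρ)
  filter_upwards [tendsto_natCast_atTop_atTop.eventually h, eventually_ge_atTop 1] with m hm h1
  have h2 : (1 : ℝ) ≤ m := by exact_mod_cast h1
  rw [Real.norm_of_nonneg (Real.log_nonneg h2)] at hm
  simpa [abs_of_nonneg (show (0 : ℝ) ≤ m by linarith)] using hm

/-- binomial tail from below, general constants -/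
theorem binom_tail {γ κ : ℝ} (hγ0 : 0 < γ) (hγ1 : γ < 1) (hκ : 2 * γ ^ 2 < κ) (hκ1 : κ ≤ 1) :
    ∃ m₀ : ℕ, ∀ m : ℕ, m₀ ≤ m → (m : ℝ) ^ (-κ) * 2 ^ m ≤
      cnt (fun s : Finset (Fin m) => (m : ℝ) / 2 + γ * Lam m ≤ s.card) := by
  obtain ⟨τ, hτ⟩ : ∃ τ : ℝ, τ = κ - 2 * γ ^ 2 := ⟨_, rfl⟩
  have hτ0 : 0 < τ := by linarith
  have hτ1 : τ < 1 := by
    have : 0 < γ ^ 2 := by positivity
    linarith
  obtain ⟨ρ, hρ⟩ : ∃ ρ : ℝ, ρ = τ / 20 := ⟨_, rfl⟩
  have hρ0 : 0 < ρ := by linarith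
  have e1 : ∀ᶠ m : ℕ in atTop, (max (9 / ρ ^ 2) (4 / τ) : ℝ) ≤ Real.log m :=
    (Real.tendsto_log_atTop.comp tendsto_natCast_atTop_atTop).eventually_ge_atTop _
  have e2 := Lam_le_eps (show (0 : ℝ) < (τ / 40) ^ 2 by positivity)
  have e3 : ∀ᶠ m : ℕ in atTop, (1 / ρ : ℝ) ≤ m :=
    tendsto_natCast_atTop_atTop.eventually_ge_atTop _
  obtain ⟨m₀, hm₀⟩ := Filter.eventually_atTop.mp (e1.and (e2.and e3))
  refine ⟨max m₀ 500, fun m hm => ?_⟩
  obtain ⟨hlog', hlog2, hmρ⟩ := hm₀ m ((le_max_left _ _).trans hm)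
  have hlog : 9 / ρ ^ 2 ≤ Real.log m := (le_max_left _ _).trans hlog'
  have hlogτ : 4 / τ ≤ Real.log m := (le_max_right _ _).trans hlog'
  have hm50 : 500 ≤ m := (le_max_right _ _).trans hm
  have hmR : (500 : ℝ) ≤ m := by exact_mod_cast hm50
  have hlogpos : 0 < Real.log m := lt_of_lt_of_le (by positivity) hlog
  set s := Real.sqrt m with hs
  have hs0 : 0 ≤ s := Real.sqrt_nonneg _
  have hss : s * s = m := Real.mul_self_sqrt (by linarith)
  have hs1 : 1 ≤ s := by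
    rw [hs, Real.one_le_sqrt]
    linarith
  set L := Lam m with hL
  have hL0 : 0 ≤ L := Real.sqrt_nonneg _
  have hLL : L * L = m * Real.log m := Real.mul_self_sqrt (by positivity)
  have hLs : 3 * s ≤ ρ * L := by
    refine le_of_sq_le_sq ?_ (by positivity)
    have h1 : (3 * s) ^ 2 = 9 * m := by
      rw [mul_pow, sq s, hss]
      norm_num
    have h2 : (ρ * L) ^ 2 = m * (ρ ^ 2 * Real.log m) := by
      rw [mul_pow, sq L, hLL]
      ring
    rw [h1, h2]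
    have h3 : 9 ≤ ρ ^ 2 * Real.log m := by
      rw [div_le_iff₀ (by positivity)] at hlog
      linarith
    have h4 := mul_le_mul_of_nonneg_left h3 (show (0 : ℝ) ≤ m by linarith)
    linarith
  have hLm : L ≤ τ / 40 * m := by
    refine le_of_sq_le_sq ?_ (by positivity)
    rw [sq L, hLL]
    have h1 : (τ / 40 * m : ℝ) ^ 2 = m * ((τ / 40) ^ 2 * m) := by ring
    rw [h1]
    exact mul_le_mul_of_nonneg_left hlog2 (by linarith)
  set M := m / 2 with hM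
  have hM1 : (m : ℝ) / 2 - 1 / 2 ≤ M := by
    have : m ≤ 2 * M + 1 := by omega
    have : (m : ℝ) ≤ 2 * M + 1 := by exact_mod_cast this
    linarith
  have hM2 : (1 / 2 - ρ) * (m : ℝ) ≤ M := by
    have : 1 ≤ ρ * m := by
      rw [div_le_iff₀ hρ0] at hmρ
      linarith
    linarith
  have hM3 : 0.45 * (m : ℝ) ≤ M := by linarith
  have hMpos : (0 : ℝ) < M := by linarith
  set j₀ := ⌈γ * L⌉₊ + 1 with hj₀
  set r := Nat.sqrt m with hr
  have hj1 : γ * L + 1 ≤ j₀ := by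
    rw [hj₀]
    push_cast
    have := Nat.le_ceil (γ * L)
    linarith
  have hj2 : (j₀ : ℝ) ≤ γ * L + 2 := by
    rw [hj₀]
    push_cast
    have := (Nat.ceil_lt_add_one (a := γ * L) (by positivity)).le
    linarith
  have hr1 : (r : ℝ) ≤ s := by
    rw [hr, hs]
    exact Real.nat_sqrt_le_real_sqrt
  have hr2 : s ≤ ((r + 1 : ℕ) : ℝ) := by
    push_cast
    rw [hr, hs]
    exact Real.real_sqrt_le_nat_sqrt_succ
  have hJ : ((j₀ + r : ℕ) : ℝ) ≤ (γ + ρ) * L := by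
    push_cast
    linarith
  have hJ' : ((j₀ + r : ℕ) : ℝ) ≤ τ / 40 * 1.05 * m := by
    have h1 : (γ + ρ) * L ≤ 1.05 * L := mul_le_mul_of_nonneg_right (by linarith) hL0
    linarith
  have hJ4 : 4 * ((j₀ + r : ℕ) : ℝ) ≤ τ / 4 * M := by
    have h1 : τ / 4 * (0.45 * (m : ℝ)) ≤ τ / 4 * M := mul_le_mul_of_nonneg_left hM3 (by linarith)
    have h2 : 0 ≤ τ * (m : ℝ) := by positivity
    linarith
  have h4J : 4 * (j₀ + r) ≤ M := by
    have h1 : τ / 4 * (M : ℝ) ≤ 1 * M := mul_le_mul_of_nonneg_right (by linarith) hMpos.le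
    have : (4 : ℝ) * ((j₀ + r : ℕ) : ℝ) ≤ M := by linarith
    exact_mod_cast this
  have hcount := G1a_count m j₀ r ((m : ℝ) / 2 + γ * L) (by push_cast; linarith)
  have hratio := G1a_ratio m (j₀ + r) (by omega) h4J (j₀ + r) le_rfl
  refine le_trans ?_ hcount
  have hmid := G1a_mid m (by omega)
  set C := (Nat.choose m M : ℝ) with hC
  set J : ℝ := ((j₀ + r : ℕ) : ℝ) with hJdef
  have hJ0 : 0 ≤ J := by positivity
  -- the exponent
  have hγ2 : 0 < γ ^ 2 := by positivity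
  have hJ2 : J ^ 2 / M ≤ (2 * γ ^ 2 + τ / 2) * Real.log m := by
    rw [div_le_iff₀ hMpos]
    have h1 : J ^ 2 ≤ ((γ + ρ) * L) ^ 2 := pow_le_pow_left₀ hJ0 hJ 2
    have h2 : ((γ + ρ) * L) ^ 2 = (γ + ρ) ^ 2 * (m * Real.log m) := by
      rw [mul_pow, sq L, hLL]
    have h3 : (2 * γ ^ 2 + τ / 2) * Real.log m * ((1 / 2 - ρ) * m) ≤
        (2 * γ ^ 2 + τ / 2) * Real.log m * M :=
      mul_le_mul_of_nonneg_left hM2 (by positivity)
    have h4 : 0 ≤ (m : ℝ) * Real.log m := by positivity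
    have h5 : (γ + ρ) ^ 2 ≤ (2 * γ ^ 2 + τ / 2) * (1 / 2 - ρ) := by
      have : 2 * γ * ρ + ρ ^ 2 + ρ * (2 * γ ^ 2 + τ / 2) ≤ τ / 4 := by
        have i1 : γ * ρ ≤ 1 * ρ := mul_le_mul_of_nonneg_right hγ1.le hρ0.le
        have i2 : ρ ^ 2 ≤ ρ := by
          have i4 : ρ * ρ ≤ 1 * ρ := mul_le_mul_of_nonneg_right (by linarith) hρ0.le
          linarith
        have i3 : ρ * (2 * γ ^ 2 + τ / 2) ≤ ρ * 1 := mul_le_mul_of_nonneg_left (by linarith) hρ0.le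
        linarith
      linarith
    have h6 : (γ + ρ) ^ 2 * (m * Real.log m) ≤
        (2 * γ ^ 2 + τ / 2) * (1 / 2 - ρ) * (m * Real.log m) := mul_le_mul_of_nonneg_right h5 h4
    linarith
  have hJ3 : J * (2 * J / M) ^ 2 ≤ τ / 4 * Real.log m := by
    have h1 : J * (2 * J / M) ^ 2 = (J ^ 2 / M) * (4 * J / M) := by
      field_simp
      ring
    rw [h1]
    have h2 : 4 * J / M ≤ τ / 4 := by
      rw [div_le_iff₀ hMpos]
      exact hJ4
    calc (J ^ 2 / M) * (4 * J / M) ≤ ((2 * γ ^ 2 + τ / 2) * Real.log m) * (τ / 4) :=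
          mul_le_mul hJ2 h2 (by positivity) (by positivity)
      _ ≤ (1 * Real.log m) * (τ / 4) := by
          refine mul_le_mul_of_nonneg_right ?_ (by linarith)
          exact mul_le_mul_of_nonneg_right (by linarith) hlogpos.le
      _ = τ / 4 * Real.log m := by ring
  have hlog2' : Real.log 2 ≤ τ / 4 * Real.log m := by
    have h1 := Real.log_two_lt_d9
    have h2 : 1 ≤ τ / 4 * Real.log m := by
      rw [div_le_iff₀ hτ0] at hlogτ
      linarith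
    linarith
  have hexp : (m : ℝ) ^ (-κ) * 2 ≤ Real.exp (-(J ^ 2 / M + J * (2 * J / M) ^ 2)) := by
    have h2e : (2 : ℝ) = Real.exp (Real.log 2) := (Real.exp_log (by norm_num)).symm
    have hE : ∀ E : ℝ, E ≤ (2 * γ ^ 2 + τ / 2 + τ / 4) * Real.log m →
        (m : ℝ) ^ (-κ) * 2 ≤ Real.exp (-E) := by
      intro E hE
      rw [Real.rpow_def_of_pos (by linarith), h2e, ← Real.exp_add]
      apply Real.exp_le_exp.mpr
      have : κ = 2 * γ ^ 2 + τ := by rw [hτ]; ring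
      rw [this]
      linarith
    exact hE _ (by linarith)
  have hrp : (0 : ℝ) ≤ (m : ℝ) ^ (-κ) := Real.rpow_nonneg (by linarith) _
  have hC0 : 0 ≤ C := by positivity
  calc (m : ℝ) ^ (-κ) * 2 ^ m
      ≤ (m : ℝ) ^ (-κ) * (C * (2 * s)) := mul_le_mul_of_nonneg_left hmid hrp
    _ = s * (C * ((m : ℝ) ^ (-κ) * 2)) := by ring
    _ ≤ s * (C * Real.exp (-(J ^ 2 / M + J * (2 * J / M) ^ 2))) :=
        mul_le_mul_of_nonneg_left (mul_le_mul_of_nonneg_left hexp hC0) hs0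
    _ ≤ ((r + 1 : ℕ) : ℝ) * (Nat.choose m (M + (j₀ + r)) : ℝ) :=
        mul_le_mul hr2 hratio (by positivity) (by positivity)

theorem ev_a' {ζ : ℝ} (hζ : 0 < ζ) (δ : ℝ) (hδ : 0 < δ) : ∀ᶠ n : ℕ in atTop,
    Real.exp (-((n : ℝ) ^ ζ - 1)) ≤ δ := by
  have h1 : Tendsto (fun n : ℕ => Real.exp (-((n : ℝ) ^ ζ - 1))) atTop (𝓝 0) := by
    refine Real.tendsto_exp_neg_atTop_nhds_zero.comp ?_
    exact tendsto_atTop_add_const_right _ (-1 : ℝ) (G1P.tendsto_rp _ hζ)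
  exact (h1.eventually (gt_mem_nhds hδ)).mono fun n hn => hn.le

theorem ev_b' {θ : ℝ} (hθ : 0 < θ) (δ : ℝ) (hδ : 0 < δ) : ∀ᶠ n : ℕ in atTop,
    (n : ℝ) * (2 * Real.exp (-(2 * (n : ℝ) ^ θ))) ≤ δ := by
  set k : ℕ := ⌈1 / θ⌉₊ with hk
  have hk1 : 1 ≤ θ * k := by
    have h1 : 1 / θ ≤ k := Nat.le_ceil _
    rw [div_le_iff₀ hθ] at h1
    linarith
  have h1 : Tendsto (fun n : ℕ => ((n : ℝ) ^ θ) ^ k *
      Real.exp (-((n : ℝ) ^ θ))) atTop (𝓝 0) :=
    (Real.tendsto_pow_mul_exp_neg_atTop_nhds_zero k).comp (G1P.tendsto_rp _ hθ)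
  have h2 := h1.eventually (gt_mem_nhds (show (0 : ℝ) < δ / 2 by linarith))
  filter_upwards [h2, eventually_ge_atTop 1] with n hn hn1
  have hn1' : (1 : ℝ) ≤ n := by exact_mod_cast hn1
  have h3 : (n : ℝ) ≤ ((n : ℝ) ^ θ) ^ k := by
    rw [← Real.rpow_natCast, ← Real.rpow_mul (by linarith)]
    calc (n : ℝ) = (n : ℝ) ^ (1 : ℝ) := (Real.rpow_one _).symm
      _ ≤ _ := Real.rpow_le_rpow_of_exponent_le hn1' hk1
  have h4 : Real.exp (-(2 * (n : ℝ) ^ θ)) ≤ Real.exp (-((n : ℝ) ^ θ)) := by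
    apply Real.exp_le_exp.2
    have : 0 ≤ (n : ℝ) ^ θ := by positivity
    linarith
  have h5 : (n : ℝ) * Real.exp (-(2 * (n : ℝ) ^ θ)) ≤
      ((n : ℝ) ^ θ) ^ k * Real.exp (-((n : ℝ) ^ θ)) :=
    mul_le_mul h3 h4 (Real.exp_pos _).le (by positivity)
  linarith

theorem ev_c' {γ γ₁ ζ : ℝ} (hγ : 0 < γ) (h : γ < γ₁) (hζ : 0 < ζ) : ∀ᶠ n : ℕ in atTop,
    ∀ m : ℕ, (n : ℝ) - (n : ℝ) ^ (1 - ζ) ≤ m →
    γ * Lam n + 1 / 2 + (n : ℝ) ^ (1 / 2 - ζ / 4) ≤ γ₁ * Lam m := by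
  obtain ⟨d, hd⟩ : ∃ d : ℝ, d = (γ₁ - γ) / 4 := ⟨_, rfl⟩
  have hd0 : 0 < d := by linarith
  obtain ⟨μ, hμ⟩ : ∃ μ : ℝ, μ = d / γ₁ := ⟨_, rfl⟩
  have hγ1 : 0 < γ₁ := by linarith
  have hμ0 : 0 < μ := by rw [hμ]; positivity
  have hμ1 : μ < 1 := by
    rw [hμ, div_lt_one hγ1]
    linarith
  have hμd : γ₁ * μ = d := by
    rw [hμ]
    field_simp
  have h1 := (G1P.tendsto_rp ζ hζ).eventually_ge_atTop (1 / μ)
  have h2 := (G1P.tendsto_rp (ζ / 4) (by positivity)).eventually_ge_atTop (2 / d)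
  have h3 := (Real.tendsto_log_atTop.comp tendsto_natCast_atTop_atTop).eventually_ge_atTop
    (max 1 (-Real.log (1 - μ) / μ))
  filter_upwards [h1, h2, h3, eventually_ge_atTop 1,
    (G1P.tendsto_rp (1 / 2 - ζ / 4 + ζ / 4) (by norm_num)).eventually_ge_atTop (1 / d)]
    with n h1 h2 h3 hn1 h13 m hm
  have h3' : max 1 (-Real.log (1 - μ) / μ) ≤ Real.log n := h3
  have h3a : 1 ≤ Real.log n := (le_max_left _ _).trans h3'
  have h3b : -Real.log (1 - μ) ≤ μ * Real.log n := by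
    have := (le_max_right _ _).trans h3'
    rw [div_le_iff₀ hμ0] at this
    linarith
  have hn : (1 : ℝ) ≤ n := by exact_mod_cast hn1
  have hn0 : (0 : ℝ) < n := by linarith
  have h4 : (n : ℝ) ^ (1 - ζ) ≤ μ * n := by
    rw [div_le_iff₀ hμ0] at h1
    have h5 : (n : ℝ) ^ (1 - ζ) * (n : ℝ) ^ ζ = n := by
      rw [← Real.rpow_add hn0]
      norm_num
    have h6 : 0 < (n : ℝ) ^ (1 - ζ) := Real.rpow_pos_of_pos hn0 _
    nlinarith
  have h5 : (1 - μ) * n ≤ m := by linarith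
  have hm0 : (0 : ℝ) < m := lt_of_lt_of_le (mul_pos (by linarith) hn0) h5
  have h6 : (1 - μ) * Real.log n ≤ Real.log m := by
    have h7 : Real.log ((1 - μ) * n) ≤ Real.log m :=
      Real.log_le_log (mul_pos (by linarith) hn0) h5
    rw [Real.log_mul (by linarith) hn0.ne'] at h7
    linarith
  have h10 : (1 - μ) * Lam n ≤ Lam m := by
    unfold Lam
    rw [← Real.sqrt_sq (show (0 : ℝ) ≤ 1 - μ by linarith), ← Real.sqrt_mul (by positivity)]
    apply Real.sqrt_le_sqrt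
    have h11 : ((1 - μ) * n) * ((1 - μ) * Real.log n) ≤ m * Real.log m :=
      mul_le_mul h5 h6 (mul_nonneg (by linarith) (by linarith)) hm0.le
    nlinarith
  have hs : (n : ℝ) ^ (1 / 2 : ℝ) ≤ Lam n := by
    rw [← Real.sqrt_eq_rpow]
    unfold Lam
    apply Real.sqrt_le_sqrt
    nlinarith
  have h12 : (n : ℝ) ^ (1 / 2 - ζ / 4) ≤ d / 2 * Lam n := by
    have h7 : (n : ℝ) ^ (1 / 2 - ζ / 4) * (n : ℝ) ^ (ζ / 4) = (n : ℝ) ^ (1 / 2 : ℝ) := by
      rw [← Real.rpow_add hn0]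
      norm_num
    have h8 : 0 < (n : ℝ) ^ (1 / 2 - ζ / 4) := Real.rpow_pos_of_pos hn0 _
    rw [div_le_iff₀ hd0] at h2
    have h9 : (n : ℝ) ^ (1 / 2 - ζ / 4) * 2 ≤ d * (n : ℝ) ^ (1 / 2 : ℝ) := by
      rw [← h7]
      nlinarith
    have h11 : d * (n : ℝ) ^ (1 / 2 : ℝ) ≤ d * Lam n := mul_le_mul_of_nonneg_left hs hd0.le
    linarith
  have h14 : 1 / 2 ≤ d / 2 * Lam n := by
    have e : (1 / 2 - ζ / 4 + ζ / 4 : ℝ) = 1 / 2 := by ring
    rw [e, div_le_iff₀ hd0] at h13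
    have h11 : d * (n : ℝ) ^ (1 / 2 : ℝ) ≤ d * Lam n := mul_le_mul_of_nonneg_left hs hd0.le
    linarith
  have hL : 0 ≤ Lam n := Real.sqrt_nonneg _
  have h15 : γ₁ * ((1 - μ) * Lam n) ≤ γ₁ * Lam m := mul_le_mul_of_nonneg_left h10 hγ1.le
  have h16 : γ₁ * ((1 - μ) * Lam n) = (γ₁ - d) * Lam n := by
    rw [← hμd]
    ring
  have h17 : (γ₁ - d) * Lam n = γ * Lam n + 3 * (d * Lam n) := by
    rw [hd]
    ring
  have h18 : 0 ≤ d * Lam n := by positivity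
  linarith

/-- almost all graphs have a vertex of degree at least `n / 2 + γ √(n log n)`, if `γ < 1 / √2` -/
theorem big_vertex {γ : ℝ} (hγ : 0 < γ) (h2 : 2 * γ ^ 2 < 1) : ∀ δ : ℝ, 0 < δ → ∃ n₀ : ℕ,
    ∀ n : ℕ, n₀ ≤ n →
    cnt (fun G : SimpleGraph (Fin n) => ∀ v, (dg G v : ℝ) < n / 2 + γ * Lam n) ≤
      δ * Fintype.card (SimpleGraph (Fin n)) := by
  classical
  intro δ hδ
  have h0 : T_G0 := G0
  have h1 : T_P1 := P1
  obtain ⟨γ₁, hγ₁, hγ₂⟩ : ∃ γ₁ : ℝ, γ < γ₁ ∧ 2 * γ₁ ^ 2 < 1 := by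
    have hg : γ < Real.sqrt (1 / 2) := by
      apply Real.lt_sqrt_of_sq_lt
      linarith
    refine ⟨(γ + Real.sqrt (1 / 2)) / 2, by linarith, ?_⟩
    have h3 : Real.sqrt (1 / 2) ^ 2 = 1 / 2 := Real.sq_sqrt (by norm_num)
    have h4 : (γ + Real.sqrt (1 / 2)) / 2 < Real.sqrt (1 / 2) := by linarith
    have h5 : 0 ≤ (γ + Real.sqrt (1 / 2)) / 2 := by positivity
    nlinarith
  have hγ10 : 0 < γ₁ := by linarith
  have hγ11 : γ₁ < 1 := by nlinarith
  obtain ⟨ζ, hζ⟩ : ∃ ζ : ℝ, ζ = (1 - 2 * γ₁ ^ 2) / 4 := ⟨_, rfl⟩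
  have hζ0 : 0 < ζ := by linarith
  have hζ1 : ζ < 1 / 4 := by
    have : 0 < γ₁ ^ 2 := by positivity
    linarith
  obtain ⟨m₀, hm₀⟩ := binom_tail (κ := 1 - 2 * ζ) hγ10 hγ11 (by linarith) (by linarith)
  have e1 := ev_a' hζ0 (δ / 2) (by positivity)
  have e2 := ev_b' (θ := ζ / 2) (by positivity) (δ / 2) (by positivity)
  have e3 := ev_c' hγ hγ₁ hζ0
  have e4 := (G1P.tendsto_rp ζ hζ0).eventually_ge_atTop 2
  have e5 := Filter.eventually_ge_atTop (2 * m₀ + 2)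
  obtain ⟨n₀, hn₀⟩ := Filter.eventually_atTop.1 (e1.and (e2.and (e3.and (e4.and e5))))
  refine ⟨n₀, fun n hn => ?_⟩
  obtain ⟨e1, e2, e3, e4, e5⟩ := hn₀ n hn
  have hn1 : (1 : ℝ) ≤ n := by
    have : 1 ≤ n := by omega
    exact_mod_cast this
  have hn0 : (0 : ℝ) < n := by linarith
  set α : ℕ := ⌊(n : ℝ) ^ (1 - ζ)⌋₊ with hα
  have ha1 : (α : ℝ) ≤ (n : ℝ) ^ (1 - ζ) := Nat.floor_le (by positivity)
  have ha2 : (n : ℝ) ^ (1 - ζ) - 1 ≤ α := by
    have := Nat.lt_floor_add_one ((n : ℝ) ^ (1 - ζ))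
    rw [← hα] at this
    linarith
  have ha3 : (n : ℝ) ^ (1 - ζ) * 2 ≤ n := by
    calc (n : ℝ) ^ (1 - ζ) * 2 ≤ (n : ℝ) ^ (1 - ζ) * (n : ℝ) ^ ζ :=
          mul_le_mul_of_nonneg_left e4 (by positivity)
      _ = n := by
        rw [← Real.rpow_add hn0]
        norm_num
  have ha4 : 2 * α ≤ n := by
    have : (2 : ℝ) * α ≤ n := by linarith
    exact_mod_cast this
  obtain ⟨A, -, hA⟩ := Finset.exists_subset_card_eq
    (show α ≤ (Finset.univ : Finset (Fin n)).card by rw [Finset.card_univ, Fintype.card_fin]; omega)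
  have hAc : (Aᶜ).card = n - α := by
    rw [Finset.card_compl, Fintype.card_fin, hA]
  set m := n - α with hm
  have hmc : (m : ℝ) = n - α := by
    rw [hm, Nat.cast_sub (by omega)]
  have hmm : m₀ ≤ m := by omega
  have hm1 : 1 ≤ m := by omega
  have hm1' : (1 : ℝ) ≤ m := by exact_mod_cast hm1
  set T : ℝ := (m : ℝ) / 2 + γ₁ * Lam m with hT
  set t : ℝ := (n : ℝ) ^ (1 / 2 - ζ / 4) with ht
  have ht0 : 0 ≤ t := by positivity
  set N : ℝ := (Fintype.card (SimpleGraph (Fin n)) : ℝ) with hN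
  have hN0 : 0 ≤ N := by positivity
  -- the first event
  have b1 := G1P.ev1 h0 A hAc T ((m : ℝ) ^ (-(1 - 2 * ζ) : ℝ))
    (Real.rpow_le_one_of_one_le_of_nonpos hm1' (by linarith)) (hm₀ m hmm)
  rw [hA, ← hN] at b1
  have b2 : (n : ℝ) ^ ζ - 1 ≤ α * (m : ℝ) ^ (-(1 - 2 * ζ) : ℝ) := by
    have c1 : (n : ℝ) ^ (-(1 - 2 * ζ) : ℝ) ≤ (m : ℝ) ^ (-(1 - 2 * ζ) : ℝ) := by
      apply Real.rpow_le_rpow_of_nonpos (by linarith)
        (by rw [hmc]; linarith [Nat.cast_nonneg (α := ℝ) α]) (by linarith)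
    have c2 : (n : ℝ) ^ (-(1 - 2 * ζ) : ℝ) ≤ 1 :=
      Real.rpow_le_one_of_one_le_of_nonpos hn1 (by linarith)
    have c3 : (n : ℝ) ^ (1 - ζ) * (n : ℝ) ^ (-(1 - 2 * ζ) : ℝ) = (n : ℝ) ^ ζ := by
      rw [← Real.rpow_add hn0]
      congr 1
      ring
    have c4 : ((n : ℝ) ^ (1 - ζ) - 1) * (n : ℝ) ^ (-(1 - 2 * ζ) : ℝ) ≤
        α * (m : ℝ) ^ (-(1 - 2 * ζ) : ℝ) :=
      mul_le_mul ha2 c1 (by positivity) (by positivity)
    linarith
  have b3 : Real.exp (-(α * (m : ℝ) ^ (-(1 - 2 * ζ) : ℝ))) ≤ δ / 2 :=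
    (Real.exp_le_exp.2 (by linarith)).trans e1
  -- the second event
  have d1 : cnt (fun G : SimpleGraph (Fin n) => ∃ v ∈ A,
      ((nb G v ∩ A).card : ℝ) < ((A.card : ℝ) - 1) / 2 - t) ≤ δ / 2 * N := by
    refine (cnt_exists_le A _).trans ?_
    have d2 : ∀ v ∈ A, cnt (fun G : SimpleGraph (Fin n) =>
        ((nb G v ∩ A).card : ℝ) < ((A.card : ℝ) - 1) / 2 - t) ≤
        2 * Real.exp (-(2 * (n : ℝ) ^ (ζ / 2))) * N := by
      intro v hv
      refine (G1P.ev2 h0 h1 A v hv t ht0).trans ?_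
      refine mul_le_mul_of_nonneg_right ?_ hN0
      refine mul_le_mul_of_nonneg_left ?_ (by norm_num)
      apply Real.exp_le_exp.2
      have hpos : 0 < A.card := Finset.card_pos.2 ⟨v, hv⟩
      have hpos' : (0 : ℝ) < A.card := by exact_mod_cast hpos
      have d3 : (n : ℝ) ^ (ζ / 2) * A.card ≤ t ^ 2 := by
        rw [hA, ht, ← Real.rpow_natCast, ← Real.rpow_mul hn0.le]
        calc (n : ℝ) ^ (ζ / 2) * α ≤ (n : ℝ) ^ (ζ / 2) * (n : ℝ) ^ (1 - ζ) :=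
              mul_le_mul_of_nonneg_left ha1 (by positivity)
          _ = _ := by
            rw [← Real.rpow_add hn0]
            congr 1
            push_cast
            ring
      have d4 : (n : ℝ) ^ (ζ / 2) ≤ t ^ 2 / A.card := by
        rw [le_div_iff₀ hpos']
        exact d3
      have d5 : 2 * t ^ 2 / (A.card : ℝ) = 2 * (t ^ 2 / A.card) := by ring
      rw [d5]
      linarith
    refine (Finset.sum_le_sum d2).trans ?_
    rw [Finset.sum_const, nsmul_eq_mul, hA]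
    have d6 : (α : ℝ) ≤ n := by
      have : α ≤ n := by omega
      exact_mod_cast this
    have d7 : (α : ℝ) * (2 * Real.exp (-(2 * (n : ℝ) ^ (ζ / 2)))) ≤ δ / 2 :=
      (mul_le_mul_of_nonneg_right d6 (by positivity)).trans e2
    calc (α : ℝ) * (2 * Real.exp (-(2 * (n : ℝ) ^ (ζ / 2))) * N) =
        (α : ℝ) * (2 * Real.exp (-(2 * (n : ℝ) ^ (ζ / 2)))) * N := by ring
      _ ≤ δ / 2 * N := mul_le_mul_of_nonneg_right d7 hN0
  -- both
  have f1 : cnt (fun G : SimpleGraph (Fin n) => ∀ v, (dg G v : ℝ) < n / 2 + γ * Lam n) ≤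
      cnt (fun G : SimpleGraph (Fin n) => (∀ v ∈ A, ((nb G v \ A).card : ℝ) < T) ∨
        ∃ v ∈ A, ((nb G v ∩ A).card : ℝ) < ((A.card : ℝ) - 1) / 2 - t) := by
    apply cnt_mono
    intro G hG
    by_contra hcon
    push Not at hcon
    obtain ⟨⟨v, hv, g1⟩, g2⟩ := hcon
    have g3 := g2 v hv
    have g4 := hG v
    have g5 : (dg G v : ℝ) = ((nb G v \ A).card : ℝ) + ((nb G v ∩ A).card : ℝ) := by
      unfold dg
      rw [← Finset.card_sdiff_add_card_inter (nb G v) A]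
      push_cast
      ring
    have g6 := e3 m (by rw [hmc]; linarith)
    rw [hA] at g3
    rw [g5] at g4
    have g7 : (n : ℝ) = m + α := by rw [hmc]; ring
    rw [hT] at g1
    linarith
  refine f1.trans ((cnt_or_le _ _).trans ?_)
  have f2 : Real.exp (-(α * (m : ℝ) ^ (-(1 - 2 * ζ) : ℝ))) * N ≤ δ / 2 * N :=
    mul_le_mul_of_nonneg_right b3 hN0
  linarith

open Classical in
theorem few_count {β : ℝ} (hβ : 0 < β) (n : ℕ) (hn : 1 ≤ n) (v : Fin n) :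
    ((({v}ᶜ : Finset (Fin n)).powerset.filter
      (fun s => (n : ℝ) / 2 + β * Lam n < s.card)).card : ℝ) ≤
      2 * (n : ℝ) ^ (-(2 * β ^ 2) : ℝ) * 2 ^ (({v}ᶜ : Finset (Fin n)).card) := by
  have h1 : T_P1 := P1
  set c : Finset (Fin n) := {v}ᶜ with hc
  have hn0 : (0 : ℝ) < n := by exact_mod_cast hn
  have hcard : c.card ≤ n := (Finset.card_le_univ c).trans (by simp)
  have hcardR : (c.card : ℝ) ≤ n := by exact_mod_cast hcard
  have hL0 : 0 ≤ Lam n := Real.sqrt_nonneg _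
  have hlog : 0 ≤ Real.log n := Real.log_nonneg (by exact_mod_cast hn)
  have hLsq : Lam n ^ 2 = n * Real.log n := Real.sq_sqrt (mul_nonneg hn0.le hlog)
  have h2 := h1 (↥c) (fun _ => 1) n (2 * β * Lam n) hn0 (by positivity) (by simpa using hcardR)
  have h3 : ((c.powerset.filter (fun s => (n : ℝ) / 2 + β * Lam n < s.card)).card : ℝ) ≤
      cnt (fun χ : ↥c → Bool => 2 * β * Lam n ≤ |∑ i, (1 : ℝ) * sg (χ i)|) := by
    unfold cnt
    refine Nat.cast_le.2 ?_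
    refine Finset.card_le_card_of_injOn (fun s => fun i : ↥c => decide (i.1 ∈ s)) ?_ ?_
    · intro s hs
      obtain ⟨hs1, hs2⟩ := Finset.mem_filter.1 (Finset.mem_coe.1 hs)
      have hs3 := Finset.mem_powerset.1 hs1
      refine Finset.mem_coe.2 (Finset.mem_filter.2 ⟨Finset.mem_univ _, ?_⟩)
      have h4 : ∑ i : ↥c, (1 : ℝ) * sg (decide (i.1 ∈ s)) = 2 * s.card - c.card := by
        have h5 : ∑ i : ↥c, (1 : ℝ) * sg (decide (i.1 ∈ s)) =
            ∑ i ∈ c, (2 * (if i ∈ s then (1 : ℝ) else 0) - 1) := by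
          rw [← Finset.sum_coe_sort c]
          refine Finset.sum_congr rfl fun i _ => ?_
          by_cases hi : i.1 ∈ s
          · simp [sg, hi]; norm_num
          · simp [sg, hi]
        rw [h5, Finset.sum_sub_distrib, ← Finset.mul_sum, Finset.sum_boole,
          Finset.filter_mem_eq_inter, Finset.inter_eq_right.2 hs3]
        simp
      change 2 * β * Lam n ≤ |∑ i : ↥c, (1 : ℝ) * sg (decide (i.1 ∈ s))|
      rw [h4]
      refine le_trans ?_ (le_abs_self _)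
      linarith
    · intro s hs s' hs' h
      have hs1 := Finset.mem_powerset.1 (Finset.mem_filter.1 (Finset.mem_coe.1 hs)).1
      have hs1' := Finset.mem_powerset.1 (Finset.mem_filter.1 (Finset.mem_coe.1 hs')).1
      ext i
      by_cases hi : i ∈ c
      · have h4 := congrFun h ⟨i, hi⟩
        simpa using h4
      · exact ⟨fun h4 => absurd (hs1 h4) hi, fun h4 => absurd (hs1' h4) hi⟩
  refine h3.trans (h2.trans (le_of_eq ?_))
  have h6 : -((2 * β * Lam n) ^ 2) / (2 * n) = Real.log n * (-(2 * β ^ 2)) := by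
    rw [mul_pow, hLsq]
    field_simp
  rw [h6, Real.rpow_def_of_pos hn0, Fintype.card_coe]

theorem few_vertex {β : ℝ} (hβ : 0 < β) (n : ℕ) (hn : 1 ≤ n) (v : Fin n) :
    cnt (fun G : SimpleGraph (Fin n) => (n : ℝ) / 2 + β * Lam n < dg G v) ≤
      2 * (n : ℝ) ^ (-(2 * β ^ 2) : ℝ) * Fintype.card (SimpleGraph (Fin n)) := by
  classical
  have h0 : T_G0 := G0
  have h2 := h0 n {v} (fun _ s => (n : ℝ) / 2 + β * Lam n < s.card)
  have h3 : (fun G : SimpleGraph (Fin n) => ∀ w ∈ ({v} : Finset (Fin n)),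
      (n : ℝ) / 2 + β * Lam n < ((nb G w \ {v}).card : ℝ)) =
      (fun G : SimpleGraph (Fin n) => (n : ℝ) / 2 + β * Lam n < dg G v) := by
    funext G
    have h4 : nb G v \ {v} = nb G v := by
      ext w
      simp only [Finset.mem_sdiff, Finset.mem_singleton, mem_nb]
      exact ⟨fun h => h.1, fun h => ⟨h, fun h5 => G.irrefl (h5 ▸ h)⟩⟩
    simp only [Finset.mem_singleton, forall_eq, h4]
    rfl
  rw [h3, Finset.card_singleton, pow_one, Finset.prod_singleton] at h2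
  have h5 := few_count hβ n hn v
  have hpow : (0 : ℝ) < 2 ^ (({v}ᶜ : Finset (Fin n)).card) := by positivity
  have hM : (0 : ℝ) ≤ Fintype.card (SimpleGraph (Fin n)) := by positivity
  refine le_of_mul_le_mul_right ?_ hpow
  rw [h2]
  calc (Fintype.card (SimpleGraph (Fin n)) : ℝ) *
        ((({v}ᶜ : Finset (Fin n)).powerset.filter
          (fun s => (n : ℝ) / 2 + β * Lam n < s.card)).card : ℝ)
      ≤ (Fintype.card (SimpleGraph (Fin n)) : ℝ) *
        (2 * (n : ℝ) ^ (-(2 * β ^ 2) : ℝ) * 2 ^ (({v}ᶜ : Finset (Fin n)).card)) := by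
        refine mul_le_mul_of_nonneg_left ?_ hM
        convert h5
    _ = _ := by ring

/-- almost all graphs have fewer than `n ^ b` vertices of degree more than `n / 2 + β √(n log n)`,
for some `b < 1 / 2`, if `β > 1 / 2` -/
theorem few_vertices {β : ℝ} (hβ : 1 / 2 < β) : ∃ b : ℝ, b < 1 / 2 ∧ ∀ δ : ℝ, 0 < δ → ∃ n₀ : ℕ,
    ∀ n : ℕ, n₀ ≤ n →
    cnt (fun G : SimpleGraph (Fin n) =>
      (n : ℝ) ^ b < cnt (fun v => (n : ℝ) / 2 + β * Lam n < dg G v)) ≤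
      δ * Fintype.card (SimpleGraph (Fin n)) := by
  classical
  have hβ2 : 1 / 4 < β ^ 2 := by nlinarith
  refine ⟨3 / 4 - β ^ 2, by linarith, fun δ hδ => ?_⟩
  have hlim : Filter.Tendsto (fun n : ℕ => (n : ℝ) ^ (β ^ 2 - 1 / 4)) Filter.atTop Filter.atTop :=
    (tendsto_rpow_atTop (by linarith)).comp tendsto_natCast_atTop_atTop
  obtain ⟨n0, hn0⟩ := Filter.eventually_atTop.1 (hlim.eventually_ge_atTop (2 / δ))
  refine ⟨max n0 1, fun n hn => ?_⟩
  have hn1 : 1 ≤ n := (le_max_right _ _).trans hn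
  have hn2 := hn0 n ((le_max_left _ _).trans hn)
  have hnR : (0 : ℝ) < n := by exact_mod_cast hn1
  set M : ℝ := (Fintype.card (SimpleGraph (Fin n)) : ℝ) with hM
  have hM0 : 0 ≤ M := by positivity
  set T : ℝ := (n : ℝ) ^ (3 / 4 - β ^ 2) with hT
  have hT0 : 0 < T := Real.rpow_pos_of_pos hnR _
  have hsum : ∑ G : SimpleGraph (Fin n),
      cnt (fun v => (n : ℝ) / 2 + β * Lam n < dg G v) ≤
      n * (2 * (n : ℝ) ^ (-(2 * β ^ 2) : ℝ) * M) := by
    have h2 : ∑ G : SimpleGraph (Fin n),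
        cnt (fun v => (n : ℝ) / 2 + β * Lam n < dg G v) =
        ∑ v : Fin n, cnt (fun G : SimpleGraph (Fin n) =>
          (n : ℝ) / 2 + β * Lam n < dg G v) := by
      simp_rw [cnt_eq_sum]
      exact Finset.sum_comm
    rw [h2]
    calc ∑ v : Fin n, cnt (fun G : SimpleGraph (Fin n) =>
          (n : ℝ) / 2 + β * Lam n < dg G v)
        ≤ ∑ _v : Fin n, (2 * (n : ℝ) ^ (-(2 * β ^ 2) : ℝ) * M) :=
          Finset.sum_le_sum fun v _ => few_vertex (by linarith) n hn1 v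
      _ = n * (2 * (n : ℝ) ^ (-(2 * β ^ 2) : ℝ) * M) := by simp
  have hmarkov : cnt (fun G : SimpleGraph (Fin n) =>
      T < cnt (fun v => (n : ℝ) / 2 + β * Lam n < dg G v)) * T ≤
      ∑ G : SimpleGraph (Fin n), cnt (fun v => (n : ℝ) / 2 + β * Lam n < dg G v) := by
    rw [cnt_eq_sum, Finset.sum_mul]
    refine Finset.sum_le_sum fun G _ => ?_
    by_cases hG : T < cnt (fun v => (n : ℝ) / 2 + β * Lam n < dg G v)
    · rw [if_pos hG, one_mul]; exact hG.le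
    · rw [if_neg hG, zero_mul]; exact cnt_nonneg _
  refine le_of_mul_le_mul_right (hmarkov.trans (hsum.trans ?_)) hT0
  have h3 : (n : ℝ) * (n : ℝ) ^ (-(2 * β ^ 2) : ℝ) = (n : ℝ) ^ (1 - 2 * β ^ 2) := by
    nth_rewrite 1 [← Real.rpow_one (n : ℝ)]
    rw [← Real.rpow_add hnR]
    congr 1
  have h4 : T = (n : ℝ) ^ (1 - 2 * β ^ 2) * (n : ℝ) ^ (β ^ 2 - 1 / 4) := by
    rw [hT, ← Real.rpow_add hnR]
    congr 1
    ring
  have h5 : 2 ≤ δ * (n : ℝ) ^ (β ^ 2 - 1 / 4) := by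
    rw [div_le_iff₀ hδ] at hn2
    linarith
  have h6 : 0 ≤ (n : ℝ) ^ (1 - 2 * β ^ 2) := by positivity
  calc (n : ℝ) * (2 * (n : ℝ) ^ (-(2 * β ^ 2) : ℝ) * M)
      = 2 * ((n : ℝ) * (n : ℝ) ^ (-(2 * β ^ 2) : ℝ)) * M := by ring
    _ = 2 * (n : ℝ) ^ (1 - 2 * β ^ 2) * M := by rw [h3]
    _ ≤ (δ * (n : ℝ) ^ (β ^ 2 - 1 / 4)) * (n : ℝ) ^ (1 - 2 * β ^ 2) * M := by gcongr
    _ = δ * M * T := by rw [h4]; ring

end Pool.Agent.U380.RL
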