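import Pool.Agent.U380.RL.Det
import Pool.Agent.U380.RL.Gen
import Pool.Agent.Y393.RS.Level
import Pool.Agent.Y891.RS.Tail
import Pool.Agent.Y891.RS.Ratio
import Pool.Agent.Y961.RS.Coin
import Pool.Agent.Y232.RG.Deg
import Pool.Agent.Y125.RS.Few
import Pool.Agent.Y333.RS.Mixid
import Pool.Agent.Y256.RS.Mixconc

/-!
# Robustness of the list edge-colouring conjecture: random graphs
-/

set_option autoImplicit false

namespace Pool.Agent.U380.RL

open Finset Pool.Agent.Y393.RS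

/-! The assembly of the starting project of helper393 (`Pool.Agent.Y393.RS.All`). -/

theorem t_tail : S_tb_tail := Pool.Agent.Y891.RS.tb_tail_of Pool.Agent.Y961.RS.bin_ge
theorem t_one : S_tb_one := Pool.Agent.Y891.RS.tb_one_of t_tail
theorem t_shift : S_tb_shift := Pool.Agent.Y891.RS.tb_shift_of t_tail
theorem t_deg_ge : S_deg_ge := Pool.Agent.Y232.RG.deg_ge_of Pool.Agent.Y961.RS.bin_ge
theorem t_pair : S_pair := Pool.Agent.Y232.RG.pair_of Pool.Agent.Y961.RS.indep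
theorem t_conc : S_conc := Pool.Agent.Y891.RS.conc_of Pool.Agent.Y232.RG.dgr_formula
theorem t_level : S_level := level_of t_one t_shift t_deg_ge t_pair
theorem t_few : S_few := Pool.Agent.Y125.RS.few_of t_level t_conc

/-- Every graph `G'` on the vertex set of `G` with the following properties is `Good`: outside a
set `W` of at most `s` vertices the degrees in `G'` exceed those in `G` by at most `r₁`, and the
maximum degree of `G'` is at least the maximum degree of `G` minus `r₂`. -/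
def Robust {n : ℕ} (r₁ r₂ s : ℝ) (G : SimpleGraph (Fin n)) : Prop :=
  ∀ (G' : SimpleGraph (Fin n)) (W : Finset (Fin n)), (W.card : ℝ) ≤ s →
    (∀ v ∉ W, deg G' v ≤ deg G v + r₁) → (∃ u, ∀ v, deg G v ≤ deg G' u + r₂) → Good G'

/-- Every graph `G'` on the vertex set of `G` such that at every vertex at most `r` edges are
different in `G` and `G'` is `Good`. -/
def Resilient {n : ℕ} (r : ℝ) (G : SimpleGraph (Fin n)) : Prop :=
  ∀ G' : SimpleGraph (Fin n), (∀ v, ({w | ¬ (G.Adj v w ↔ G'.Adj v w)}.ncard : ℝ) ≤ r) → Good G'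

theorem deg_dgr {n : ℕ} (G : SimpleGraph (Fin n)) (v : Fin n) : deg G v = dgr G v := by
  unfold deg
  rw [ncard_dgr]

/-- the maximum degree -/
theorem exists_max {n : ℕ} (G : SimpleGraph (Fin n)) (u : Fin n) : ∃ D : ℕ,
    (∀ v, (G.neighborSet v).ncard ≤ D) ∧ (∃ v, (G.neighborSet v).ncard = D) := by
  haveI : Nonempty (Fin n) := ⟨u⟩
  obtain ⟨v, hv⟩ := Finite.exists_max (fun v : Fin n => (G.neighborSet v).ncard)
  exact ⟨_, hv, v, rfl⟩

theorem robust_of_few {ε : ℝ} (hε : 0 < ε) : ∃ n₀ : ℕ, ∀ n : ℕ, n₀ ≤ n →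
    ∀ (G : SimpleGraph (Fin n)) (D : ℕ), (∀ v, dgr G v ≤ D) → (∃ v, dgr G v = D) →
    (n : ℝ) ^ (2 / 3 : ℝ) ≤ D →
    ((univ.filter (fun v => (D : ℝ) - ε * Lm n < dgr G v)).card : ℝ) ≤ (n : ℝ) ^ (1 / 4 : ℝ) →
    Robust (ε / 32 * Lm n) (ε / 32 * Lm n) (ε / 32 * Lm n) G := by
  classical
  obtain ⟨n₁, h1⟩ := det (ε := ε / 2) (by positivity)
  obtain ⟨n₂, h2⟩ := growth2 (ε / 16) (by positivity)
  obtain ⟨n₃, h3⟩ := small_pow (b := 1 / 4) (κ := ε / 32) (by norm_num) (by positivity)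
  refine ⟨max n₁ (max n₂ n₃), fun n hn G D hD hv hlow hfew G' W hW hdeg hmax => ?_⟩
  have hn1 : n₁ ≤ n := le_trans (le_max_left _ _) hn
  have hn2 : n₂ ≤ n := le_trans (le_trans (le_max_left _ _) (le_max_right _ _)) hn
  have hn3 : n₃ ≤ n := le_trans (le_trans (le_max_right _ _) (le_max_right _ _)) hn
  have g2 := h2 n hn2
  have g3 := h3 n hn3
  have hL : 0 ≤ Lm n := Real.sqrt_nonneg _
  have hlog0 : 0 ≤ Real.log n := Real.log_natCast_nonneg n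
  have g4 : ε / 16 * Lm n ≤ (n : ℝ) ^ (2 / 3 : ℝ) := by
    have : 0 ≤ ε / 16 * Lm n * Real.log n := by positivity
    linarith
  obtain ⟨u, hu⟩ := hmax
  obtain ⟨D', hD', hv'⟩ := exists_max G' u
  obtain ⟨v₀, hv₀⟩ := hv
  have i1 : (D : ℝ) ≤ D' + ε / 32 * Lm n := by
    have j1 := hu v₀
    rw [deg_dgr, hv₀] at j1
    have j2 : deg G' u ≤ D' := by
      unfold deg
      exact_mod_cast hD' u
    linarith
  refine h1 n hn1 G' (W ∪ univ.filter (fun v => (D : ℝ) - ε * Lm n < dgr G v)) D' hD' hv' ?_ ?_ ?_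
  · linarith
  · have j1 : ((W ∪ univ.filter (fun v => (D : ℝ) - ε * Lm n < dgr G v)).card : ℝ) ≤
        (W.card : ℝ) + (univ.filter (fun v => (D : ℝ) - ε * Lm n < dgr G v)).card := by
      exact_mod_cast Finset.card_union_le _ _
    linarith
  · intro v hv
    rw [Finset.mem_union, not_or] at hv
    have j1 := hdeg v hv.1
    have j2 : (dgr G v : ℝ) ≤ D - ε * Lm n := by
      by_contra hcon
      exact hv.2 (by simp only [Finset.mem_filter, Finset.mem_univ, true_and]; linarith)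
    rw [deg_dgr G] at j1
    nlinarith

/-- fair coins -/
theorem coin {p : ℝ} (hp : 0 < p) : ∃ η : ℝ, 0 < η ∧ ∀ δ : ℝ, 0 < δ → ∃ n₀ : ℕ, ∀ n : ℕ, n₀ ≤ n →
    ∀ F R : SimpleGraph (Fin n), Cond p F R →
      pr (fun χ => ¬ Robust (η * Lm n) (η * Lm n) (η * Lm n) (rg F R χ)) ≤ δ := by
  obtain ⟨ε, hε, hfew⟩ := t_few p hp
  obtain ⟨n₂, h2⟩ := robust_of_few hε
  refine ⟨ε / 32, by positivity, fun δ hδ => ?_⟩
  obtain ⟨n₁, h1⟩ := hfew δ hδ
  refine ⟨max n₁ n₂, fun n hn F R hC => ?_⟩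
  have hn1 : n₁ ≤ n := le_trans (le_max_left _ _) hn
  have hn2 : n₂ ≤ n := le_trans (le_max_right _ _) hn
  refine le_trans (pr_mono (fun χ hχ => ?_)) (h1 n hn1 F R hC)
  intro hcon
  apply hχ
  obtain ⟨D, hD1, hv₀, hD2, hD3⟩ := hcon
  exact h2 n hn2 _ D hD1 hv₀ hD2 hD3

theorem mix_fix {p : ℝ} (hp : 0 < p) (P : ∀ n : ℕ, SimpleGraph (Fin n) → Prop)
    (h : ∀ δ : ℝ, 0 < δ → ∃ n₀ : ℕ, ∀ n : ℕ, n₀ ≤ n → ∀ F R : SimpleGraph (Fin n),
      Cond (p / 2) F R → pr (fun χ => ¬ P n (rg F R χ)) ≤ δ) :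
    ∀ δ : ℝ, 0 < δ → ∃ n₀ : ℕ, ∀ n : ℕ, n₀ ≤ n → ∀ q : Sym2 (Fin n) → ℝ,
      CondQ p q → 1 - δ ≤ prq q (P n) := by
  classical
  intro δ hδ
  have hid := Pool.Agent.Y333.RS.mixid
  obtain ⟨n₁, h1⟩ := h (δ / 2) (by positivity)
  obtain ⟨n₂, h2⟩ := Pool.Agent.Y256.RS.mixconc p (δ / 2) hp (by positivity)
  refine ⟨max n₁ n₂, fun n hn q hq => ?_⟩
  have h3 := h1 n ((le_max_left _ _).trans hn)
  have h4 := h2 n ((le_max_right _ _).trans hn) q hq
  rw [prq_not hid hq.1]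
  have h5 : prq q (fun G => ¬ P n G) ≤ δ := by
    rw [hid n q hq.1]
    have h6 : ∀ θ : Sym2 (Fin n) → Fin 3, (∏ e, tw q e (θ e)) *
        pr (fun χ => ¬ P n (rg (FG 0 θ) (FG 2 θ) χ)) ≤ δ / 2 * (∏ e, tw q e (θ e)) +
        (if Cond (p / 2) (FG 0 θ) (FG 2 θ) then 0 else ∏ e, tw q e (θ e)) := by
      intro θ
      have hW : 0 ≤ ∏ e, tw q e (θ e) := Finset.prod_nonneg fun e _ => tw_nonneg hq.1 e _
      by_cases hC : Cond (p / 2) (FG 0 θ) (FG 2 θ)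
      · rw [if_pos hC, add_zero, mul_comm]
        exact mul_le_mul_of_nonneg_right (h3 _ _ hC) hW
      · rw [if_neg hC]
        have := mul_le_mul_of_nonneg_left
          (pr_le_one (fun χ => ¬ P n (rg (FG 0 θ) (FG 2 θ) χ))) hW
        nlinarith
    refine (Finset.sum_le_sum fun θ _ => h6 θ).trans ?_
    rw [Finset.sum_add_distrib, ← Finset.mul_sum, tw_total]
    linarith
  linarith

/-- the graphs between `F` and `B` -/
theorem interval_fix {p : ℝ} (P : ∀ n : ℕ, SimpleGraph (Fin n) → Prop)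
    (h : ∀ δ : ℝ, 0 < δ → ∃ n₀ : ℕ, ∀ n : ℕ, n₀ ≤ n → ∀ q : Sym2 (Fin n) → ℝ,
      CondQ (p / 2) q → 1 - δ ≤ prq q (P n)) :
    ∀ δ : ℝ, 0 < δ → ∃ n₀ : ℕ, ∀ n : ℕ, n₀ ≤ n → ∀ F B : SimpleGraph (Fin n), F ≤ B →
      (∀ v, ((F.neighborSet v).ncard : ℝ) + p * n ≤ (B.neighborSet v).ncard ∨
        ∃ u, ((F.neighborSet v).ncard : ℝ) + (B.neighborSet v).ncard + p * n ≤
          (F.neighborSet u).ncard + (B.neighborSet u).ncard) →
      ({G : SimpleGraph (Fin n) | F ≤ G ∧ G ≤ B ∧ ¬ P n G}.ncard : ℝ) ≤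
        δ * {G : SimpleGraph (Fin n) | F ≤ G ∧ G ≤ B}.ncard := by
  classical
  intro δ hδ
  obtain ⟨n₀, h⟩ := h δ hδ
  have hid := Pool.Agent.Y333.RS.mixid
  refine ⟨n₀, fun n hn F B hFB hv => ?_⟩
  obtain ⟨c, hc, hw⟩ := wt_hq hFB
  have h1 := h n hn (hq F B) ⟨hq_mem F B, fun v => by
    rw [un_hq hFB, ed_hq hFB]
    rcases hv v with h | ⟨u, h⟩
    · left
      rw [ncard_dgr, ncard_dgr] at h
      linarith
    · right
      refine ⟨u, ?_⟩
      rw [ed_hq hFB]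
      rw [ncard_dgr, ncard_dgr, ncard_dgr, ncard_dgr] at h
      linarith⟩
  have key : ∀ Q : SimpleGraph (Fin n) → Prop, prq (hq F B) Q =
      c * ({G : SimpleGraph (Fin n) | F ≤ G ∧ G ≤ B ∧ Q G}.ncard : ℝ) := by
    intro Q
    have e1 : ({G : SimpleGraph (Fin n) | F ≤ G ∧ G ≤ B ∧ Q G}.ncard : ℝ) =
        ∑ G : SimpleGraph (Fin n), if F ≤ G ∧ G ≤ B ∧ Q G then (1 : ℝ) else 0 := by
      rw [Finset.sum_boole, ← Set.ncard_coe_finset]
      congr 2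
      ext G
      simp
    rw [e1, Finset.mul_sum]
    unfold prq
    refine Finset.sum_congr rfl fun G _ => ?_
    by_cases hQ : Q G
    · by_cases hG : F ≤ G ∧ G ≤ B
      · rw [if_pos hQ, (hw G).1 hG, if_pos ⟨hG.1, hG.2, hQ⟩, mul_one]
      · rw [if_pos hQ, (hw G).2 hG, if_neg (fun h => hG ⟨h.1, h.2.1⟩), mul_zero]
    · rw [if_neg hQ, if_neg (fun h => hQ h.2.2), mul_zero]
  have h2 := key (fun _ => True)
  rw [prq_true hid (hq_mem F B)] at h2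
  have h3 := key (fun G => ¬ P n G)
  have h4 := prq_not hid (hq_mem F B) (P n)
  have h5 : {G : SimpleGraph (Fin n) | F ≤ G ∧ G ≤ B ∧ True} =
      {G : SimpleGraph (Fin n) | F ≤ G ∧ G ≤ B} := by
    ext G
    simp
  rw [h5] at h2
  have h6 : c * ({G : SimpleGraph (Fin n) | F ≤ G ∧ G ≤ B ∧ ¬ P n G}.ncard : ℝ) ≤
      c * (δ * {G : SimpleGraph (Fin n) | F ≤ G ∧ G ≤ B}.ncard) := by
    rw [← h3]
    have : c * (δ * ({G : SimpleGraph (Fin n) | F ≤ G ∧ G ≤ B}.ncard : ℝ)) = δ := by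
      calc c * (δ * ({G : SimpleGraph (Fin n) | F ≤ G ∧ G ≤ B}.ncard : ℝ)) =
          δ * (c * ({G : SimpleGraph (Fin n) | F ≤ G ∧ G ≤ B}.ncard : ℝ)) := by ring
        _ = δ := by rw [← h2, mul_one]
    rw [this]
    linarith
  exact le_of_mul_le_mul_left h6 hc

/-- independent edges -/
theorem robust_q {p : ℝ} (hp : 0 < p) : ∃ η : ℝ, 0 < η ∧ ∀ δ : ℝ, 0 < δ → ∃ n₀ : ℕ, ∀ n : ℕ,
    n₀ ≤ n → ∀ q : Sym2 (Fin n) → ℝ, CondQ p q →
      1 - δ ≤ prq q (fun G => Robust (η * Lm n) (η * Lm n) (η * Lm n) G) := by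
  obtain ⟨η, hη, h⟩ := coin (p := p / 2) (by positivity)
  exact ⟨η, hη, mix_fix hp (fun n G => Robust (η * Lm n) (η * Lm n) (η * Lm n) G) h⟩

/-- graphs between two given graphs -/
theorem robust_int {p : ℝ} (hp : 0 < p) : ∃ η : ℝ, 0 < η ∧ ∀ δ : ℝ, 0 < δ → ∃ n₀ : ℕ, ∀ n : ℕ,
    n₀ ≤ n → ∀ F B : SimpleGraph (Fin n), F ≤ B →
      (∀ v, deg F v + p * n ≤ deg B v ∨ ∃ u, deg F v + deg B v + p * n ≤ deg F u + deg B u) →
      ({G : SimpleGraph (Fin n) | F ≤ G ∧ G ≤ B ∧ ¬ Robust (η * Lm n) (η * Lm n) (η * Lm n) G}.ncard : ℝ) ≤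
        δ * {G : SimpleGraph (Fin n) | F ≤ G ∧ G ≤ B}.ncard := by
  obtain ⟨η, hη, h⟩ := robust_q (p := p / 2) (by positivity)
  exact ⟨η, hη, interval_fix (fun n G => Robust (η * Lm n) (η * Lm n) (η * Lm n) G) h⟩

theorem deg_sub {n : ℕ} (G G' : SimpleGraph (Fin n)) (v : Fin n) :
    deg G' v ≤ deg G v + ({w | ¬ (G.Adj v w ↔ G'.Adj v w)}.ncard : ℝ) := by
  have h1 : G'.neighborSet v ⊆ G.neighborSet v ∪ {w | ¬ (G.Adj v w ↔ G'.Adj v w)} := by
    intro w hw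
    by_cases h : G.Adj v w
    · exact Or.inl h
    · refine Or.inr ?_
      intro hcon
      exact h (hcon.2 hw)
  have h2 := (Set.ncard_le_ncard h1 (Set.toFinite _)).trans (Set.ncard_union_le _ _)
  unfold deg
  exact_mod_cast h2

theorem resilient_of {n : ℕ} (hn : 0 < n) {r s : ℝ} (hs : 0 ≤ s) {G : SimpleGraph (Fin n)}
    (h : Robust r r s G) : Resilient r G := by
  intro G' hG'
  haveI : Nonempty (Fin n) := ⟨⟨0, hn⟩⟩
  obtain ⟨u, hu⟩ := Finite.exists_max (fun v : Fin n => (G.neighborSet v).ncard)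
  refine h G' ∅ (by simpa using hs) (fun v _ => ?_) ⟨u, fun v => ?_⟩
  · exact (deg_sub G G' v).trans (by linarith [hG' v])
  · have h1 : deg G v ≤ deg G u := by
      unfold deg
      exact_mod_cast hu v
    have h2 := deg_sub G' G u
    have h3 : {w | ¬ (G'.Adj u w ↔ G.Adj u w)} = {w | ¬ (G.Adj u w ↔ G'.Adj u w)} := by
      ext w
      simp only [Set.mem_ofPred_eq]
      tauto
    rw [h3] at h2
    linarith [hG' u]

open Pool.Agent.H162R2.AG in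
/-- the uniform random graph, with explicit constants -/
theorem robust_half {d₁ d₂ : ℝ} (h₁ : 0 ≤ d₁) (h₂ : 0 ≤ d₂)
    (hd : d₁ + d₂ < (Real.sqrt 2 - 1) / 2) : ∃ s : ℝ, 0 < s ∧ ∀ δ : ℝ, 0 < δ → ∃ n₀ : ℕ, ∀ n : ℕ,
    n₀ ≤ n → ({G : SimpleGraph (Fin n) | ¬ Robust (d₁ * Lm n) (d₂ * Lm n) (s * Lm n) G}.ncard : ℝ) ≤
      δ * Nat.card (SimpleGraph (Fin n)) := by
  classical
  obtain ⟨τ, hτ⟩ : ∃ τ : ℝ, τ = (Real.sqrt 2 - 1) / 2 - d₁ - d₂ := ⟨_, rfl⟩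
  have hτ0 : 0 < τ := by linarith
  have hr2 : Real.sqrt 2 ^ 2 = 2 := Real.sq_sqrt (by norm_num)
  have hr0 : 0 ≤ Real.sqrt 2 := Real.sqrt_nonneg _
  have hr1 : 1.41 < Real.sqrt 2 := by
    apply Real.lt_sqrt_of_sq_lt
    norm_num
  have hr3 : Real.sqrt 2 < 1.42 := by
    rw [Real.sqrt_lt' (by norm_num)]
    norm_num
  have hγ0 : 0 < Real.sqrt 2 / 2 - τ / 4 := by linarith
  have hγ1 : 2 * (Real.sqrt 2 / 2 - τ / 4) ^ 2 < 1 := by nlinarith
  obtain ⟨b, hb, hfew⟩ := few_vertices (β := 1 / 2 + τ / 4) (by linarith)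
  obtain ⟨n₁, h1⟩ := det (ε := τ / 2) (by positivity)
  obtain ⟨n₄, h4⟩ := small_pow (b := b) (κ := τ / 32) hb (by positivity)
  refine ⟨τ / 32, by positivity, fun δ hδ => ?_⟩
  obtain ⟨n₂, h2⟩ := big_vertex hγ0 hγ1 (δ / 2) (by positivity)
  obtain ⟨n₃, h3⟩ := hfew (δ / 2) (by positivity)
  refine ⟨max (max n₁ n₂) (max (max n₃ n₄) 1), fun n hn => ?_⟩
  have hn1 : n₁ ≤ n := le_trans (le_trans (le_max_left _ _) (le_max_left _ _)) hn
  have hn2 : n₂ ≤ n := le_trans (le_trans (le_max_right _ _) (le_max_left _ _)) hn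
  have hn3 : n₃ ≤ n :=
    le_trans (le_trans (le_trans (le_max_left _ _) (le_max_left _ _)) (le_max_right _ _)) hn
  have hn4 : n₄ ≤ n :=
    le_trans (le_trans (le_trans (le_max_right _ _) (le_max_left _ _)) (le_max_right _ _)) hn
  have hn5 : 1 ≤ n := le_trans (le_trans (le_max_right _ _) (le_max_right _ _)) hn
  have g4 := h4 n hn4
  have b1 := h2 n hn2
  have b2 := h3 n hn3
  have hL : 0 ≤ Lm n := Real.sqrt_nonneg _
  have hτL : 0 ≤ τ * Lm n := by positivity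
  have e1 : ({G : SimpleGraph (Fin n) |
      ¬ Robust (d₁ * Lm n) (d₂ * Lm n) (τ / 32 * Lm n) G}.ncard : ℝ) =
      cnt (fun G : SimpleGraph (Fin n) =>
        ¬ Robust (d₁ * Lm n) (d₂ * Lm n) (τ / 32 * Lm n) G) := by
    unfold cnt
    rw [← Set.ncard_coe_finset]
    congr 2
    ext G
    simp
  rw [e1, Nat.card_eq_fintype_card]
  refine le_trans (cnt_mono (Q := fun G : SimpleGraph (Fin n) =>
    (∀ v, (Pool.Agent.H162R2.Sparse.dg G v : ℝ) <
      n / 2 + (Real.sqrt 2 / 2 - τ / 4) * Lam n) ∨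
    ((n : ℝ) ^ b < cnt (fun v => (n : ℝ) / 2 + (1 / 2 + τ / 4) * Lam n <
      Pool.Agent.H162R2.Sparse.dg G v))) ?_) (le_trans (cnt_or_le _ _) (by linarith))
  intro G hG
  by_contra hcon
  rw [not_or] at hcon
  obtain ⟨c1, c2⟩ := hcon
  apply hG
  push Not at c1 c2
  obtain ⟨v₀, hv₀⟩ := c1
  intro G' W hW hdeg ⟨u, hu⟩
  obtain ⟨D', hD', hv'⟩ := exists_max G' u
  have i0 : (n : ℝ) / 2 + (Real.sqrt 2 / 2 - τ / 4) * Lm n ≤ deg G v₀ := by
    rw [deg_dgr]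
    exact hv₀
  have i1 : (n : ℝ) / 2 + (Real.sqrt 2 / 2 - τ / 4) * Lm n - d₂ * Lm n ≤ D' := by
    have j1 := hu v₀
    have j2 : deg G' u ≤ D' := by
      unfold deg
      exact_mod_cast hD' u
    linarith
  have i2 : (Real.sqrt 2 / 2 - τ / 4) * Lm n - d₂ * Lm n =
      (1 / 2 + τ / 4) * Lm n + d₁ * Lm n + τ / 2 * Lm n := by
    rw [hτ]
    ring
  have c3 : ((univ.filter (fun v => (n : ℝ) / 2 + (1 / 2 + τ / 4) * Lm n < dgr G v)).card : ℝ) ≤
      (n : ℝ) ^ b := by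
    refine le_trans (le_of_eq ?_) c2
    unfold cnt
    congr 2
  have hd1L : 0 ≤ d₁ * Lm n := by positivity
  refine h1 n hn1 G' (W ∪ univ.filter (fun v => (n : ℝ) / 2 + (1 / 2 + τ / 4) * Lm n < dgr G v)) D'
    hD' hv' ?_ ?_ ?_
  · have hn' : (1 : ℝ) ≤ n := by exact_mod_cast hn5
    have : (n : ℝ) ^ (2 / 3 : ℝ) ≤ n := by
      calc (n : ℝ) ^ (2 / 3 : ℝ) ≤ (n : ℝ) ^ (1 : ℝ) :=
            Real.rpow_le_rpow_of_exponent_le hn' (by norm_num)
        _ = n := Real.rpow_one _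
    linarith
  · have j1 : ((W ∪ univ.filter
        (fun v => (n : ℝ) / 2 + (1 / 2 + τ / 4) * Lm n < dgr G v)).card : ℝ) ≤
        (W.card : ℝ) +
          (univ.filter (fun v => (n : ℝ) / 2 + (1 / 2 + τ / 4) * Lm n < dgr G v)).card := by
      exact_mod_cast Finset.card_union_le _ _
    linarith
  · intro v hv
    rw [Finset.mem_union, not_or] at hv
    have j1 := hdeg v hv.1
    have j2 : (dgr G v : ℝ) ≤ n / 2 + (1 / 2 + τ / 4) * Lm n := by
      by_contra hcon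
      exact hv.2 (by simp only [Finset.mem_filter, Finset.mem_univ, true_and]; linarith)
    rw [deg_dgr G] at j1
    linarith

end Pool.Agent.U380.RL
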